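import Mathlib
import Pool.Agent.H200.NewtonC

open MeasureTheory Metric Set Filter Topology
open scoped ENNReal NNReal

namespace Pool.Agent.Results.MP_19b229_an.HausdorffDominated

/-- The fundamental solution of `-Δ` on `ℝ^N`: `-(1/2π) log ‖z‖` for `N = 2`, and
`‖z‖^(2-N) / (N (N-2) ω_N)` otherwise, `ω_N` being the volume of the unit ball. -/
noncomputable def fundSol (N : ℕ) (z : EuclideanSpace ℝ (Fin N)) : ℝ :=
  if N = 2 then -(1 / (2 * Real.pi)) * Real.log ‖z‖
  else 1 / ((N : ℝ) * ((N : ℝ) - 2) *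
    (volume (ball (0 : EuclideanSpace ℝ (Fin N)) 1)).toReal) * ‖z‖ ^ (2 - (N : ℝ))

/-- The Newtonian potential of a signed measure. -/
noncomputable def potential (N : ℕ) (μ : SignedMeasure (EuclideanSpace ℝ (Fin N)))
    (x : EuclideanSpace ℝ (Fin N)) : ℝ :=
  (∫ y, fundSol N (x - y) ∂μ.toJordanDecomposition.posPart)
    - ∫ y, fundSol N (x - y) ∂μ.toJordanDecomposition.negPart

/-- `potential μ` agrees almost everywhere on `Ω` with a function that is Hölder continuous with
exponent `β` on `Ω`. -/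
def HasHolderPotential (N : ℕ) (Ω : Set (EuclideanSpace ℝ (Fin N))) (β : ℝ)
    (μ : SignedMeasure (EuclideanSpace ℝ (Fin N))) : Prop :=
  ∃ h : EuclideanSpace ℝ (Fin N) → ℝ,
    (∃ K : ℝ, ∀ x ∈ Ω, ∀ y ∈ Ω, |h x - h y| ≤ K * ‖x - y‖ ^ β) ∧
    ∀ᵐ x ∂(volume.restrict Ω), potential N μ x = h x

/-- The radial profile of the fundamental solution. -/
lemma profile (N : ℕ) (hN : 2 ≤ N) : ∃ (q : ℝ → ℝ) (a : ℝ), 0 < a ∧ Measurable q ∧
    (∀ s, 0 < s → HasDerivAt q (-a * s ^ (-(N : ℝ) / 2)) s) ∧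
    (∀ z : EuclideanSpace ℝ (Fin N), fundSol N z = q (‖z‖ ^ 2)) ∧
    LocallyIntegrable (fun z : EuclideanSpace ℝ (Fin N) => q (‖z‖ ^ 2)) := by
  rcases eq_or_lt_of_le hN with h2 | h3
  · subst h2
    refine ⟨fun s => -(1 / (4 * Real.pi)) * Real.log s, 1 / (4 * Real.pi), by positivity,
      by fun_prop, ?_, ?_, ?_⟩
    · intro s hs
      have := (Real.hasDerivAt_log hs.ne').const_mul (-(1 / (4 * Real.pi)))
      convert! this using 2
      rw [← Real.rpow_neg_one]
      congr 1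
      norm_num
    · intro z
      unfold fundSol
      dsimp only
      rw [if_pos rfl, Real.log_pow]
      have := Real.pi_ne_zero
      field_simp
      push_cast
      ring
    · rw [locallyIntegrable_iff]
      intro K hK
      obtain ⟨R, hR1, hR⟩ : ∃ R : ℝ, 1 ≤ R ∧ K ⊆ ball 0 R := by
        obtain ⟨R, hR⟩ := hK.isBounded.subset_ball (0 : EuclideanSpace ℝ (Fin 2))
        exact ⟨max R 1, le_max_right _ _, hR.trans (ball_subset_ball (le_max_left _ _))⟩
      refine IntegrableOn.mono_set ?_ hR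
      refine integrableOn_ball_of_norm_le_rpow (C := 1 / (2 * Real.pi) * R ^ 2) (α := 1)
        (by simp) (by simp) ?_ ?_
      · have hne : ∀ᵐ z ∂((volume : Measure (EuclideanSpace ℝ (Fin 2))).restrict (ball 0 R)),
            z ≠ 0 := by
          have := (Set.countable_singleton (0 : EuclideanSpace ℝ (Fin 2))).ae_notMem
            ((volume : Measure (EuclideanSpace ℝ (Fin 2))).restrict (ball 0 R))
          simpa using this
        filter_upwards [hne, ae_restrict_mem measurableSet_ball] with z hz hzR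
        have hz0 : 0 < ‖z‖ := norm_pos_iff.2 hz
        rw [mem_ball_zero_iff] at hzR
        have h1 : |Real.log ‖z‖| ≤ R ^ 2 * ‖z‖ ^ (-(1 : ℝ)) := by
          rw [Real.rpow_neg_one, ← div_eq_mul_inv, le_div_iff₀ hz0]
          have h4 : Real.log ‖z‖ ≤ ‖z‖ - 1 := Real.log_le_sub_one_of_pos hz0
          have h5 : Real.log (‖z‖⁻¹) ≤ ‖z‖⁻¹ - 1 := Real.log_le_sub_one_of_pos (by positivity)
          rw [Real.log_inv] at h5
          have h6 : ‖z‖⁻¹ * ‖z‖ = 1 := inv_mul_cancel₀ hz0.ne'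
          have h7 : |Real.log ‖z‖| ≤ max ‖z‖ ‖z‖⁻¹ := by
            rw [abs_le]
            constructor
            · have := le_max_right ‖z‖ ‖z‖⁻¹
              linarith
            · have := le_max_left ‖z‖ ‖z‖⁻¹
              linarith
          calc |Real.log ‖z‖| * ‖z‖ ≤ max ‖z‖ ‖z‖⁻¹ * ‖z‖ := by gcongr
            _ = max (‖z‖ * ‖z‖) (‖z‖⁻¹ * ‖z‖) := max_mul_of_nonneg _ _ hz0.le
            _ ≤ R ^ 2 := by
              rw [h6]
              refine max_le ?_ ?_ <;> nlinarith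
        rw [norm_mul, Real.norm_eq_abs, Real.norm_eq_abs, Real.log_pow, abs_mul, abs_neg,
          abs_of_pos (by positivity : (0 : ℝ) < 1 / (4 * Real.pi))]
        have h8 : |((2 : ℕ) : ℝ)| = 2 := by norm_num
        rw [h8]
        have hpi := Real.pi_pos
        calc 1 / (4 * Real.pi) * (2 * |Real.log ‖z‖|)
            = 1 / (2 * Real.pi) * |Real.log ‖z‖| := by field_simp; ring
          _ ≤ 1 / (2 * Real.pi) * (R ^ 2 * ‖z‖ ^ (-(1 : ℝ))) := by gcongr
          _ = _ := by ring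
      · refine Measurable.aestronglyMeasurable ?_
        fun_prop
  · have hω : 0 < (volume (ball (0 : EuclideanSpace ℝ (Fin N)) 1)).toReal :=
      ENNReal.toReal_pos (isOpen_ball.measure_pos _ ⟨0, by simp⟩).ne' measure_ball_lt_top.ne
    have hN3 : (2 : ℝ) < N := by exact_mod_cast h3
    set c : ℝ := 1 / ((N : ℝ) * ((N : ℝ) - 2) *
      (volume (ball (0 : EuclideanSpace ℝ (Fin N)) 1)).toReal) with hc
    have hc0 : 0 < c := by
      have : (0 : ℝ) < N - 2 := by linarith
      have : (0 : ℝ) < N := by linarith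
      positivity
    have hpw : ∀ z : EuclideanSpace ℝ (Fin N), (‖z‖ ^ 2) ^ ((2 - (N : ℝ)) / 2)
        = ‖z‖ ^ (2 - (N : ℝ)) := by
      intro z
      rw [← Real.rpow_natCast ‖z‖ 2, ← Real.rpow_mul (norm_nonneg z)]
      congr 1
      push_cast
      ring
    refine ⟨fun s => c * s ^ ((2 - (N : ℝ)) / 2), c * ((N : ℝ) - 2) / 2, ?_, by fun_prop,
      ?_, ?_, ?_⟩
    · have : (0 : ℝ) < N - 2 := by linarith
      positivity
    · intro s hs
      have := (Real.hasDerivAt_rpow_const (p := (2 - (N : ℝ)) / 2) (Or.inl hs.ne')).const_mul c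
      convert! this using 1
      have h9 : (2 - (N : ℝ)) / 2 - 1 = -(N : ℝ) / 2 := by ring
      rw [h9]
      ring
    · intro z
      unfold fundSol
      dsimp only
      rw [if_neg (by omega), hpw, ← hc]
    · refine locallyIntegrable_of_norm_le_rpow (C := c) (α := (N : ℝ) - 2) ?_ ?_ ?_ ?_
      · simp
        omega
      · simp
      · refine ae_of_all _ fun z => ?_
        dsimp only
        rw [hpw, norm_mul, Real.norm_eq_abs, Real.norm_eq_abs, abs_of_pos hc0,
          abs_of_nonneg (by positivity), neg_sub]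
      · refine Measurable.aestronglyMeasurable ?_
        fun_prop

/-- Almost every point is a point where one of the two parts dominates. -/
lemma dominate {N : ℕ} (P Q : Measure (EuclideanSpace ℝ (Fin N))) [IsFiniteMeasure P]
    [IsFiniteMeasure Q] {S : Set (EuclideanSpace ℝ (Fin N))} (hS : MeasurableSet S)
    (hPS : P S = 0) (hQS : Q Sᶜ = 0) :
    ∀ᵐ x ∂(P + Q), x ∉ S → ∃ δ > 0, ∀ t, 0 < t → t < δ →
      3 * Q (closedBall x t) ≤ P (closedBall x t) := by
  filter_upwards [Besicovitch.ae_tendsto_measure_inter_div_of_measurableSet (P + Q) hS] with x hx hxS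
  rw [indicator_of_notMem hxS] at hx
  have h1 : ∀ᶠ r in 𝓝[>] (0 : ℝ),
      (P + Q) (S ∩ closedBall x r) / (P + Q) (closedBall x r) < 1 / 4 :=
    hx.eventually (gt_mem_nhds (by simp))
  rw [eventually_nhdsWithin_iff, Metric.eventually_nhds_iff] at h1
  obtain ⟨δ, hδ, h1⟩ := h1
  refine ⟨δ, hδ, fun t ht0 htδ => ?_⟩
  have h2 := h1 (by rw [dist_zero_right, Real.norm_eq_abs, abs_of_pos ht0]; exact htδ) ht0
  have h3 : (P + Q) (S ∩ closedBall x t) = Q (closedBall x t) := by
    rw [Measure.add_apply, measure_mono_null inter_subset_left hPS, zero_add]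
    have h4 := measure_inter_add_sdiff (μ := Q) (closedBall x t) hS
    have h5 : Q (closedBall x t \ S) = 0 :=
      measure_mono_null (fun y hy => hy.2) hQS
    rw [h5, add_zero] at h4
    rw [inter_comm]
    exact h4
  rw [h3] at h2
  have h6 : Q (closedBall x t) ≤ 1 / 4 * (P + Q) (closedBall x t) := by
    have := (ENNReal.div_le_iff_le_mul (b := (P + Q) (closedBall x t)) (a := Q (closedBall x t))
      (c := 1 / 4) (Or.inr (by norm_num)) (Or.inl (measure_ne_top _ _))).1 h2.le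
    exact this
  rw [Measure.add_apply] at h6
  have h7 : P (closedBall x t) = ENNReal.ofReal (P (closedBall x t)).toReal :=
    (ENNReal.ofReal_toReal (measure_ne_top _ _)).symm
  have h8 : Q (closedBall x t) = ENNReal.ofReal (Q (closedBall x t)).toReal :=
    (ENNReal.ofReal_toReal (measure_ne_top _ _)).symm
  set p : ℝ := (P (closedBall x t)).toReal with hp
  set r : ℝ := (Q (closedBall x t)).toReal with hr
  have hp0 : 0 ≤ p := ENNReal.toReal_nonneg
  have hr0 : 0 ≤ r := ENNReal.toReal_nonneg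
  rw [h7, h8] at h6 ⊢
  have h9 : (1 / 4 : ℝ≥0∞) = ENNReal.ofReal (1 / 4) := by
    rw [ENNReal.ofReal_div_of_pos (by norm_num)]
    norm_num
  rw [h9, ← ENNReal.ofReal_add hp0 hr0, ← ENNReal.ofReal_mul (by norm_num),
    ENNReal.ofReal_le_ofReal_iff (by positivity)] at h6
  have h10 : (3 : ℝ≥0∞) = ENNReal.ofReal 3 := by norm_num
  rw [h10, ← ENNReal.ofReal_mul (by norm_num)]
  exact ENNReal.ofReal_le_ofReal (by linarith)

theorem result (N : ℕ) (hN : 2 ≤ N) (Ω : Set (EuclideanSpace ℝ (Fin N))) (hΩ : IsOpen Ω)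
    (hb : Bornology.IsBounded Ω) (β : ℝ) (hβ : 0 < β)
    (μ : SignedMeasure (EuclideanSpace ℝ (Fin N))) (hμ : μ.totalVariation Ωᶜ = 0)
    (hH : HasHolderPotential N Ω β μ) :
    (∃ C : ℝ≥0, ∀ A : Set (EuclideanSpace ℝ (Fin N)),
      μ.totalVariation A ≤ C * μH[(N : ℝ) - 2 + β] A) ∧
    ∃ μn : ℕ → SignedMeasure (EuclideanSpace ℝ (Fin N)),
      (∀ n, (μn n).totalVariation Ωᶜ = 0) ∧
      Tendsto (fun n => (μn n - μ).totalVariation univ) atTop (𝓝 0) ∧
      ∀ n, ∀ A : Set (EuclideanSpace ℝ (Fin N)), MeasurableSet A → A ⊆ Ω →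
        (μn n).totalVariation A ≤ (n : ℝ≥0∞) * μH[(N : ℝ) - 2 + β] A := by
  have hs : 0 < (N : ℝ) - 2 + β := by
    have : (2 : ℝ) ≤ N := by exact_mod_cast hN
    linarith
  have main : ∃ C : ℝ≥0, ∀ A : Set (EuclideanSpace ℝ (Fin N)),
      μ.totalVariation A ≤ C * μH[(N : ℝ) - 2 + β] A := by
    obtain ⟨h, ⟨K, hK⟩, hu⟩ := hH
    obtain ⟨q, a, ha, hqm, hq, hqf, hloc⟩ := profile N hN
    obtain ⟨R1, hR1⟩ := hb.exists_norm_le
    have hK' : ∀ x ∈ Ω, ∀ y ∈ Ω, |h x - h y| ≤ (max K 0) * ‖x - y‖ ^ β := by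
      intro x hx y hy
      refine (hK x hx y hy).trans ?_
      gcongr
      exact le_max_left _ _
    obtain ⟨C, hC, hdens⟩ := Pool.Agent.H200.NewtonC.density (N := N) (by omega) ha hqm hq hloc
      (R1 := R1) hΩ (le_max_right K 0) hβ
    set P := μ.toJordanDecomposition.posPart with hP
    set Q := μ.toJordanDecomposition.negPart with hQ
    have hV : μ.totalVariation = P + Q := rfl
    have hPQ : (P + Q) Ωᶜ = 0 := hμ
    have hΩae : ∀ᵐ x ∂(P + Q), x ∈ Ω := by
      rw [ae_iff]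
      exact hPQ
    rw [Measure.add_apply, add_eq_zero] at hPQ
    have hPb : ∀ᵐ y ∂P, ‖y‖ ≤ R1 := by
      have : ∀ᵐ y ∂P, y ∈ Ω := by
        rw [ae_iff]
        exact hPQ.1
      filter_upwards [this] with y hy using hR1 y hy
    have hQb : ∀ᵐ y ∂Q, ‖y‖ ≤ R1 := by
      have : ∀ᵐ y ∂Q, y ∈ Ω := by
        rw [ae_iff]
        exact hPQ.2
      filter_upwards [this] with y hy using hR1 y hy
    have hu1 : ∀ᵐ x ∂(volume.restrict Ω),
        (∫ y, q (‖x - y‖ ^ 2) ∂P) - (∫ y, q (‖x - y‖ ^ 2) ∂Q) = h x := by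
      filter_upwards [hu] with x hx
      rw [← hx]
      unfold potential
      simp only [hqf]
      rfl
    have hu2 : ∀ᵐ x ∂(volume.restrict Ω),
        (∫ y, q (‖x - y‖ ^ 2) ∂Q) - (∫ y, q (‖x - y‖ ^ 2) ∂P) = -h x := by
      filter_upwards [hu1] with x hx
      rw [← hx]
      ring
    have hK2 : ∀ x ∈ Ω, ∀ y ∈ Ω, |(-h x) - (-h y)| ≤ (max K 0) * ‖x - y‖ ^ β := by
      intro x hx y hy
      have h1 : (-h x) - (-h y) = -(h x - h y) := by ring
      rw [h1, abs_neg]
      exact hK' x hx y hy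
    obtain ⟨S, hS, hPS, hQS⟩ := μ.toJordanDecomposition.mutuallySingular
    have d1 := dominate P Q hS hPS hQS
    have d2 := dominate Q P hS.compl hQS (by rwa [compl_compl])
    rw [add_comm Q P] at d2
    have hd : ∀ᵐ x ∂(P + Q), ∃ δ > 0, ∀ r, 0 < r → r < δ →
        (P + Q) (closedBall x r) ≤ ENNReal.ofReal (C * r ^ ((N : ℝ) - 2 + β)) := by
      filter_upwards [hΩae, d1, d2] with x hx h1 h2
      by_cases hxS : x ∈ S
      · have := hdens (fun x => -h x) hK2 Q P hQb hPb hu2 x hx (h2 (by simpa using hxS))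
        rwa [add_comm Q P] at this
      · exact hdens h hK' P Q hPb hQb hu1 x hx (h1 hxS)
    refine ⟨C.toNNReal, fun A => ?_⟩
    rw [hV]
    exact Pool.Agent.H200.NewtonC.hausdorff (P + Q) hC hs hd A
  refine ⟨main, ?_⟩
  obtain ⟨C, hC⟩ := main
  refine ⟨fun n => if (C : ℝ≥0) ≤ n then μ else 0, ?_, ?_, ?_⟩
  · intro n
    dsimp only
    split_ifs
    · exact hμ
    · rw [SignedMeasure.totalVariation_zero]
      simp
  · refine tendsto_const_nhds.congr' ?_
    obtain ⟨n0, hn0⟩ := exists_nat_ge (C : ℝ≥0)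
    filter_upwards [eventually_ge_atTop n0] with n hn
    have h1 : (C : ℝ≥0) ≤ n := hn0.trans (by exact_mod_cast hn)
    rw [if_pos h1, sub_self, SignedMeasure.totalVariation_zero]
    simp
  · intro n A _ _
    dsimp only
    split_ifs with h1
    · refine (hC A).trans ?_
      gcongr
      exact_mod_cast h1
    · rw [SignedMeasure.totalVariation_zero]
      simp

end Pool.Agent.Results.MP_19b229_an.HausdorffDominated
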